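import Mathlib

/-! A matroid with a finite ground set in any universe is carried to a matroid on `Fin k`. -/

set_option autoImplicit false

namespace Pool.Agent.helper24.Welsh2

open Set

variable {α : Type*} {k : ℕ} {f : Fin k → α}

theorem cm_ss (hf : Function.Injective f) {A B : Set (Fin k)} : f '' A ⊂ f '' B ↔ A ⊂ B := by
  rw [ssubset_iff_subset_ne, ssubset_iff_subset_ne, image_subset_image_iff hf, hf.image_injective.ne_iff]

theorem cm_indep {M : Matroid α} (hf : Function.Injective f) (I : Set (Fin k)) :
    (M.comap f).Indep I ↔ M.Indep (f '' I) := by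
  rw [Matroid.comap_indep_iff]
  exact and_iff_left hf.injOn

theorem cm_base {M : Matroid α} (hf : Function.Injective f) (hr : range f = M.E) (B : Set (Fin k)) :
    (M.comap f).IsBase B ↔ M.IsBase (f '' B) := by
  rw [Matroid.isBase_iff_maximal_indep, Matroid.isBase_iff_maximal_indep]
  constructor
  · intro h
    refine ⟨(cm_indep hf B).1 h.prop, ?_⟩
    intro J hJ hBJ
    have hJr : J ⊆ range f := by rw [hr]; exact hJ.subset_ground
    obtain ⟨J', rfl⟩ : ∃ J', f '' J' = J := ⟨f ⁻¹' J, image_preimage_eq_of_subset hJr⟩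
    have h1 : B ⊆ J' := (image_subset_image_iff hf).1 hBJ
    exact image_mono (h.le_of_ge ((cm_indep hf J').2 hJ) h1)
  · intro h
    refine ⟨(cm_indep hf B).2 h.prop, ?_⟩
    intro J hJ hBJ
    exact (image_subset_image_iff hf).1 (h.le_of_ge ((cm_indep hf J).1 hJ) (image_mono hBJ))

theorem cm_ground {M : Matroid α} (hr : range f = M.E) : (M.comap f).E = univ := by
  rw [Matroid.comap_ground_eq, ← hr, preimage_range]

theorem cm_dual {M : Matroid α} (hf : Function.Injective f) (hr : range f = M.E) :
    (M.comap f)✶ = M✶.comap f := by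
  refine Matroid.ext_isBase ?_ ?_
  · rw [Matroid.dual_ground, cm_ground hr, cm_ground (by rw [Matroid.dual_ground, hr])]
  · intro B _
    rw [Matroid.dual_isBase_iff (by rw [cm_ground hr]; exact subset_univ _), cm_base hf hr,
      cm_base hf (by rw [Matroid.dual_ground, hr]), cm_ground hr,
      Matroid.dual_isBase_iff (by rw [← hr]; exact image_subset_range f B), ← hr,
      ← image_univ, image_sdiff hf]

theorem cm_circ {M : Matroid α} (hf : Function.Injective f) (hr : range f = M.E) (C : Set (Fin k)) :
    (M.comap f).IsCircuit C ↔ M.IsCircuit (f '' C) := by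
  rw [Matroid.isCircuit_iff_forall_ssubset, Matroid.isCircuit_iff_forall_ssubset]
  have hsub : C ⊆ (M.comap f).E := by rw [cm_ground hr]; exact subset_univ _
  have hsub' : f '' C ⊆ M.E := by rw [← hr]; exact image_subset_range f C
  rw [← Matroid.not_indep_iff hsub, ← Matroid.not_indep_iff hsub', cm_indep hf]
  refine and_congr Iff.rfl ?_
  constructor
  · intro h J hJ
    obtain ⟨J', rfl⟩ : ∃ J', f '' J' = J :=
      ⟨f ⁻¹' J, image_preimage_eq_of_subset (hJ.subset.trans (image_subset_range f C))⟩
    rw [← cm_indep hf]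
    exact h ((cm_ss hf).1 hJ)
  · intro h J hJ
    rw [cm_indep hf]
    exact h ((cm_ss hf).2 hJ)

theorem cm_cocirc {M : Matroid α} (hf : Function.Injective f) (hr : range f = M.E) (C : Set (Fin k)) :
    (M.comap f).IsCocircuit C ↔ M.IsCocircuit (f '' C) := by
  rw [Matroid.isCocircuit_def, Matroid.isCocircuit_def, cm_dual hf hr]
  exact cm_circ hf (by rw [Matroid.dual_ground, hr]) C

theorem cm_rep {K : Type*} [Field K] {m : ℕ} {x : α → Fin m → K} (hf : Function.Injective f) (I : Set (Fin k)) :
    LinearIndepOn K x (f '' I) ↔ LinearIndepOn K (x ∘ f) I :=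
  ⟨fun h => h.comp_of_image hf.injOn, fun h => LinearIndepOn.image_of_comp f x h⟩

end Pool.Agent.helper24.Welsh2
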