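import Mathlib

/-! WELSH PROJECT, module FA (all universes): linear algebra over a field of characteristic not two. -/

set_option autoImplicit false

namespace Pool.Agent.helper24.Welsh2

/-- no Fano configuration over a field with 2 ≠ 0 -/
theorem f7_alg {F Q : Type*} [Field F] [AddCommGroup Q] [Module F Q] (h2 : (2 : F) ≠ 0) {a b c d e f g : Q}
    (hind : ∀ i j k : F, i • a + j • b + k • c = 0 → i = 0 ∧ j = 0 ∧ k = 0)
    {d1 d2 e1 e2 f1 f2 f3 f4 g1 g2 g3 g4 g5 g6 : F}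
    (hd : d = d1 • a + d2 • b) (he : e = e1 • a + e2 • c) (hf : f = f1 • b + f2 • c) (hf' : f = f3 • d + f4 • e)
    (hg : g = g1 • a + g2 • f) (hg' : g = g3 • b + g4 • e) (hg'' : g = g5 • c + g6 • d)
    (h0 : d1 ≠ 0 ∧ d2 ≠ 0 ∧ e1 ≠ 0 ∧ e2 ≠ 0 ∧ f1 ≠ 0 ∧ f2 ≠ 0 ∧ f3 ≠ 0 ∧ f4 ≠ 0 ∧ g1 ≠ 0 ∧ g2 ≠ 0 ∧ g3 ≠ 0 ∧ g4 ≠ 0 ∧
      g5 ≠ 0 ∧ g6 ≠ 0) : False := by
  obtain ⟨h1, h2', h3, h4, h5, h6, h7, h8, h9, h10, h11, h12, h13, h14⟩ := h0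
  subst hd he hf
  have r1 := hind (f3 * d1 + f4 * e1) (f3 * d2 - f1) (f4 * e2 - f2) (by
    rw [← sub_eq_zero] at hf'
    rw [← neg_eq_zero, ← hf']
    module)
  have r2 := hind (g1 - g4 * e1) (g2 * f1 - g3) (g2 * f2 - g4 * e2) (by
    rw [hg, ← sub_eq_zero] at hg'
    rw [← hg']
    module)
  have r3 := hind (g1 - g6 * d1) (g2 * f1 - g6 * d2) (g2 * f2 - g5) (by
    rw [hg, ← sub_eq_zero] at hg''
    rw [← hg'']
    module)
  obtain ⟨a1, a2, a3⟩ := r1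
  obtain ⟨b1, b2, b3⟩ := r2
  obtain ⟨c1, c2, c3⟩ := r3
  have k1 : g6 = g2 * f3 := by
    have : (g6 - g2 * f3) * d2 = 0 := by linear_combination -c2 - g2 * a2
    rcases mul_eq_zero.1 this with h | h
    · linear_combination h
    · exact absurd h h2'
  have k2 : g4 = g2 * f4 := by
    have : (g4 - g2 * f4) * e2 = 0 := by linear_combination -b3 - g2 * a3
    rcases mul_eq_zero.1 this with h | h
    · linear_combination h
    · exact absurd h h4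
  have k3 : g2 * (2 * (f3 * d1)) = 0 := by
    linear_combination g2 * a1 + b1 - c1 - d1 * k1 + e1 * k2
  exact (mul_ne_zero h10 (mul_ne_zero h2 (mul_ne_zero h7 h1))) k3

/-- no dual Fano configuration over a field with 2 ≠ 0 -/
theorem f7s_alg {F Q : Type*} [Field F] [AddCommGroup Q] [Module F Q] (h2 : (2 : F) ≠ 0) {p q s x o y z : Q}
    (hind : ∀ i j k l : F, i • p + j • q + k • s + l • x = 0 → i = 0 ∧ j = 0 ∧ k = 0 ∧ l = 0)
    {o1 o2 o3 y1 y2 y3 y4 y5 y6 z1 z2 z3 z4 z5 z6 z7 z8 z9 z10 z11 z12 : F}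
    (ho : o = o1 • p + o2 • q + o3 • s)
    (hy : y = y1 • x + y2 • p + y3 • q) (hy' : y = y4 • x + y5 • s + y6 • o)
    (hz : z = z1 • x + z2 • p + z3 • s) (hz' : z = z4 • x + z5 • q + z6 • o) (hz'' : z = z7 • y + z8 • q + z9 • s)
    (hz''' : z = z10 • y + z11 • p + z12 • o)
    (h0 : o1 ≠ 0 ∧ o2 ≠ 0 ∧ o3 ≠ 0 ∧ y1 ≠ 0 ∧ y2 ≠ 0 ∧ y3 ≠ 0 ∧ y4 ≠ 0 ∧ y5 ≠ 0 ∧ y6 ≠ 0 ∧ z1 ≠ 0 ∧ z2 ≠ 0 ∧ z3 ≠ 0 ∧
      z4 ≠ 0 ∧ z5 ≠ 0 ∧ z6 ≠ 0 ∧ z7 ≠ 0 ∧ z8 ≠ 0 ∧ z9 ≠ 0 ∧ z10 ≠ 0 ∧ z11 ≠ 0 ∧ z12 ≠ 0) : False := by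
  obtain ⟨no1, no2, no3, ny1, ny2, ny3, ny4, ny5, ny6, nz1, nz2, nz3, nz4, nz5, nz6, nz7, nz8, nz9,
    nz10, nz11, nz12⟩ := h0
  subst ho
  have r1 := hind (y2 - y6 * o1) (y3 - y6 * o2) (-y5 - y6 * o3) (y1 - y4) (by
    rw [hy, ← sub_eq_zero] at hy'
    rw [← hy']
    module)
  have r2 := hind (z2 - z6 * o1) (-z5 - z6 * o2) (z3 - z6 * o3) (z1 - z4) (by
    rw [hz, ← sub_eq_zero] at hz'
    rw [← hz']
    module)
  have r3 := hind (z2 - z7 * y2) (-z7 * y3 - z8) (z3 - z9) (z1 - z7 * y1) (by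
    rw [hz, hy, ← sub_eq_zero] at hz''
    rw [← hz'']
    module)
  have r4 := hind (z2 - z10 * y2 - z11 - z12 * o1) (-z10 * y3 - z12 * o2) (z3 - z12 * o3)
    (z1 - z10 * y1) (by
    rw [hz, hy, ← sub_eq_zero] at hz'''
    rw [← hz''']
    module)
  obtain ⟨a1, a2, a3, a4⟩ := r1
  obtain ⟨b1, b2, b3, b4⟩ := r2
  obtain ⟨c1, c2, c3, c4⟩ := r3
  obtain ⟨d1, d2, d3, d4⟩ := r4
  have k1 : z10 = z7 := by
    have : (z10 - z7) * y1 = 0 := by linear_combination c4 - d4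
    rcases mul_eq_zero.1 this with h | h
    · linear_combination h
    · exact absurd h ny1
  have k2 : z12 = z6 := by
    have : (z12 - z6) * o3 = 0 := by linear_combination b3 - d3
    rcases mul_eq_zero.1 this with h | h
    · linear_combination h
    · exact absurd h no3
  have k3 : z6 = z7 * y6 := by
    have : (z6 - z7 * y6) * o1 = 0 := by linear_combination c1 - b1 + z7 * a1
    rcases mul_eq_zero.1 this with h | h
    · linear_combination h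
    · exact absurd h no1
  have k4 : 2 * (z6 * o2) = 0 := by
    linear_combination -d2 - y3 * k1 - o2 * k2 - z7 * a2 + o2 * k3
  exact (mul_ne_zero h2 (mul_ne_zero nz6 no2)) k4

end Pool.Agent.helper24.Welsh2
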